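import Pool.Agent.MP_c69980_ag.H69.Near

/-!
Gluing of potentials over a blown-up point and along the line at infinity.
-/

set_option autoImplicit false

namespace Pool.Agent.MP_c69980_ag.H69

open MvPolynomial Metric Filter Topology MeasureTheory Set Real
open H4
open H60 (PR)

lemma ev_sub (p : Fin 2 → ℂ) (f : Fin 2 → PR 2) (θ : PR 2) :
    eval p (aeval f θ) = eval (fun i => eval p (f i)) θ := by
  induction θ using MvPolynomial.induction_on with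
  | C c => simp
  | add a b ha hb => simp only [map_add, ha, hb]
  | mul_X a i ha => simp only [map_mul, ha, aeval_X, eval_X]

lemma nb {a b t u : ℂ} {m n : ℕ} (h : ‖a‖ = ‖b‖ * ‖t‖ ^ (n * m)) (e : t ^ n * u = 1) :
    ‖b‖ = ‖a‖ * ‖u‖ ^ m := by
  rw [h, pow_mul, mul_assoc, ← mul_pow, ← norm_pow, ← norm_mul, e, norm_one, one_pow, mul_one]

theorem blow (cmp : CmpStmt) (change : ChangeStmt) (patch : PatchStmt) : BlowStmt := by
  intro θ θ₁ θ₂ G₁ G₂ S₁ ε ⟨ν, a1, d1, a2, d2⟩ e0 g₁ g₂ b₂ t₁ f₁ s₁ n₁ n₂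
  have he : Eqs id θ θ₁ θ₂ ν := by
    refine ⟨fun q h => ?_, fun q h => ?_, d1, d2⟩
    · have := congrArg (eval (P1 id q)) a1
      rw [ev_sub, map_mul, map_pow, eval_X] at this
      have e : (fun i => eval (P1 id q) ((![X 0, X 0 * X 1] : Fin 2 → PR 2) i)) = q := by
        ext i
        fin_cases i
        · simp [P1]
        · simp [P1, mul_comm (q 0), h]
      rw [e] at this
      rw [this, ← mul_assoc, ← mul_pow]
      simp [P1, h]
    · have := congrArg (eval (P2 id q)) a2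
      rw [ev_sub, map_mul, map_pow, eval_X] at this
      have e : (fun i => eval (P2 id q) ((![X 0 * X 1, X 1] : Fin 2 → PR 2) i)) = q := by
        ext i
        fin_cases i
        · simp [P2, h]
        · simp [P2]
      rw [e] at this
      rw [this, ← mul_assoc, ← mul_pow]
      simp [P2, h]
  obtain ⟨δ, d0, ns, H⟩ := near cmp change patch lam_id he e0 g₁ g₂ b₂ t₁ f₁ s₁ n₁ n₂
  have nr : ∀ q : Fin 2 → ℂ, q ∈ closedBall 0 δ → Nr id ε δ q := fun q hq =>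
    ⟨fun _ => (norm_le_pi_norm q 0).trans (mem_closedBall_zero_iff.1 hq),
      fun _ => (norm_le_pi_norm q 1).trans (mem_closedBall_zero_iff.1 hq)⟩
  refine ⟨ball 0 δ, isOpen_ball, mem_ball_self d0,
    fun q hq h => ns q h (nr q (ball_subset_closedBall hq)),
    fun C c c₁ c₂ hC hc hc₁ hc₂ q0 q1 q2 R P₁ P₂ η r η0 r0 => ?_⟩
  refine (H C c c₁ c₂ (dom C c (ball 0 δ)) hC hc hc₁ hc₂ q0 q1 q2 ?_
    (.of_forall fun k => ⟨dom_open hC isOpen_ball k, fun z hz => hz.1, fun z hz => ?_⟩)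
    P₁ P₂ η η0 (closedBall 0 δ \ ball 0 r) ((isCompact_closedBall _ _).diff isOpen_ball)
    fun q hq => ⟨fun h => hq.2 (h ▸ mem_ball_self r0), nr q hq.1⟩).imp fun v ⟨V, E⟩ =>
      ⟨V, fun K _ k2 k3 => eul_mono hC E fun q hq =>
        ⟨ball_subset_closedBall (k2 hq), fun h => (k3 q hq 0 rfl).not_gt h⟩⟩
  · filter_upwards [R] with k hk z hz
    filter_upwards [hk z hz] with w ⟨x0, y0, u1, u2, u3, u4, u5, u6⟩
    refine ⟨x0, y0, funext (Fin.forall_fin_two.2 ⟨u1, ?_⟩), funext (Fin.forall_fin_two.2 ⟨?_, u4⟩),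
      nb (n := 1) (by rwa [one_mul]) ?_, nb (n := 1) (by rwa [one_mul]) ?_⟩
    · exact (eq_mul_inv_iff_mul_eq₀ x0).2 u2
    · exact (eq_mul_inv_iff_mul_eq₀ y0).2 u3
    · show c.x 0 k w ^ 1 * (c.x 0 k w / c.x 0 k w ^ 2) = 1
      field_simp
    · show c.x 1 k w ^ 1 * (c.x 1 k w / c.x 1 k w ^ 2) = 1
      field_simp
  · filter_upwards [nhdsWithin_le_nhds ((dom_open hC isOpen_ball k).mem_nhds hz)] with w a
    exact nr _ (ball_subset_closedBall a.2.2)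

theorem inf (cmp : CmpStmt) (change : ChangeStmt) (patch : PatchStmt) : InfStmt := by
  intro θ θ₁ θ₂ G₁ G₂ S₁ ε ⟨d1, d2, ν, a⟩ e0 g₁ g₂ b₂ t₁ f₁ s₁ n₁ n₂
  have he : Eqs (fun t => t⁻¹) θ θ₁ θ₂ ν := by
    refine ⟨fun q h => ?_, fun q h => ?_, d1, d2⟩
    · have := (a ℂ (q 0)⁻¹ (q 1 * (q 0)⁻¹) (inv_ne_zero h)).1
      have e : (![(q 0)⁻¹⁻¹, q 1 * (q 0)⁻¹ / (q 0)⁻¹] : Fin 2 → ℂ) = q := by
        ext i
        fin_cases i
        · simp
        · simp [h]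
      rw [e] at this
      exact this
    · have := (a ℂ (q 1)⁻¹ (q 0 * (q 1)⁻¹) (inv_ne_zero h)).2
      have e : (![q 0 * (q 1)⁻¹ / (q 1)⁻¹, (q 1)⁻¹⁻¹] : Fin 2 → ℂ) = q := by
        ext i
        fin_cases i
        · simp [h]
        · simp
      rw [e] at this
      exact this
  obtain ⟨δ, d0, -, H⟩ := near cmp change patch lam_inv he e0 g₁ g₂ b₂ t₁ f₁ s₁ n₁ n₂
  obtain ⟨R, hR⟩ : ∃ R : ℝ, R = (1 + 2 / ε + ε) / δ := ⟨_, rfl⟩
  have R0 : 0 < R := by rw [hR]; positivity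
  have aux : ∀ (q : Fin 2 → ℂ) (t : ℂ), R < ‖q‖ → ‖q‖ ≤ (1 + 2 / ε + ε) * ‖t‖ → ‖t⁻¹‖ ≤ δ := by
    intro q t h1 h2
    have h3 := h1.trans_le h2
    rw [hR, div_eq_mul_inv] at h3
    have h4 : δ⁻¹ < ‖t‖ := lt_of_mul_lt_mul_left h3 (by positivity)
    rw [norm_inv]
    exact inv_le_of_inv_le₀ d0 h4.le
  have nr : ∀ q : Fin 2 → ℂ, R < ‖q‖ → Nr (fun t => t⁻¹) ε δ q := fun q hq => by
    have p1 : 0 ≤ 2 / ε * ‖q 0‖ := by positivity
    have p2 : 0 ≤ 2 / ε * ‖q 1‖ := by positivity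
    have p3 : 0 ≤ ε * ‖q 0‖ := by positivity
    have p4 : 0 ≤ ε * ‖q 1‖ := by positivity
    have p5 := norm_nonneg (q 0)
    have p6 := norm_nonneg (q 1)
    exact ⟨fun h => aux q _ hq ((nrm2 (by positivity)).2 ⟨by linarith, by linarith⟩),
      fun h => aux q _ hq ((nrm2 (by positivity)).2 ⟨by linarith, by linarith⟩)⟩
  refine ⟨R, fun G₀ S₀ g₀ b₀ f₀ C c c₁ c₂ hC hc hc₁ hc₂ q0 q1 q2 Rl P₀ P₁ P₂ η₀ r h0 r0 => ?_⟩
  obtain ⟨χ, hχ⟩ := cutoff (isCompact_closedBall 0 R) g₀ b₀ f₀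
  have far : ∀ q : Fin 2 → ℂ, q ∉ interior {q | χ q = 1} → R < ‖q‖ := fun q hq =>
    not_le.1 fun h => hq (hχ.one (mem_closedBall_zero_iff.2 h))
  obtain ⟨r₁, r1, hr⟩ := sep hχ.cpt f₀ fun q hq => (hχ.der q hq).2.2
  obtain ⟨η, η0, hη⟩ := glue patch hC hc hχ hχ.cpt h0
  obtain ⟨v₀, V₀, E₀⟩ := P₀ η (min r r₁) η0 (lt_min r0 r1)
  have op : ∀ k, IsOpen {z | z ∈ C.Ω k ∧ ∀ᶠ w in 𝓝[≠] z, R < ‖c.pt k w‖} := fun k =>
    (hC.1 k).inter isOpen_setOfPred_eventually_nhdsWithin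
  refine (H C c c₁ c₂ (fun k => {z | z ∈ C.Ω k ∧ ∀ᶠ w in 𝓝[≠] z, R < ‖c.pt k w‖})
    hC hc hc₁ hc₂ q0 q1 q2 ?_
    (.of_forall fun k => ⟨op k, fun z hz => hz.1, fun z hz => hz.2.mono fun w => nr _⟩)
    P₁ P₂ η η0 (tsupport (fderiv ℝ χ) ∪ closedBall 0 r⁻¹ \ interior {q | χ q = 1})
    (hχ.cpt.union ((isCompact_closedBall _ _).diff isOpen_interior)) fun q hq => by
      have := far q (hq.elim (fun h => (hχ.der q h).2.1) fun h => h.2)
      exact ⟨norm_pos_iff.1 (R0.trans this), nr q this⟩).elim fun v ⟨V, E⟩ => ?_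
  swap
  · refine ⟨_, hη _ _ _ v₀ v ?_ V₀ V
      (E₀ _ hχ.cpt (fun q hq => (hχ.der q hq).1) fun q hq s hs =>
        (min_le_right _ _).trans (hr q hq s hs)) (eul_mono hC E subset_union_left),
      fun K k1 k2 k3 => eul_cut hC hχ.bd
        (E₀ _ (k1.inter_right (isClosed_tsupport _)) (fun q hq => hχ.sub hq.2) fun q hq s hs =>
          (min_le_left _ _).trans (k3 q hq.1 s hs))
        (eul_mono hC E fun q hq => Or.inr ⟨k2 hq.1, hq.2⟩)⟩
    filter_upwards [hc.1] with k ⟨M, _⟩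
    refine ⟨hC.1 k, dom_open hC g₀ k, op k, Subset.rfl, fun z hz =>
      ⟨fun a => dom_mono hχ.sub a, fun a => ⟨hz, ?_⟩, fun a => a.2.2⟩⟩
    by_cases b : ∀ i, AnalyticAt ℂ (c.x i k) z
    · exact nhdsWithin_le_nhds (continuousAt_const.eventually_lt
        (pt_an (C := C) (G := univ) ⟨hz, b, trivial⟩).continuousAt.norm
        (far _ fun h => a ⟨hz, b, h⟩))
    · obtain ⟨i, hi⟩ := not_forall.1 b
      filter_upwards [(tendsto_norm_cobounded_atTop.comp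
        ((M i z hz).resolve_left hi)).eventually_gt_atTop R] with w hw
      exact hw.trans_le (norm_le_pi_norm (c.pt k w) i)
  · filter_upwards [Rl] with k hk z hz
    filter_upwards [hk z hz] with w ⟨u1, u2, u3, u4, u5, u6⟩
    have x0 : c.x 0 k w ≠ 0 := right_ne_zero_of_mul_eq_one u1
    have y0 : c.x 1 k w ≠ 0 := right_ne_zero_of_mul_eq_one u4
    refine ⟨x0, y0, funext (Fin.forall_fin_two.2 ⟨eq_inv_of_mul_eq_one_left u1, ?_⟩),
      funext (Fin.forall_fin_two.2 ⟨?_, eq_inv_of_mul_eq_one_left u4⟩), nb u5 ?_, nb u6 ?_⟩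
    · exact (eq_mul_inv_iff_mul_eq₀ x0).2 u2
    · exact (eq_mul_inv_iff_mul_eq₀ y0).2 u3
    · show c.x 0 k w ^ 3 * ((c.x 0 k w)⁻¹ / c.x 0 k w ^ 2) = 1
      field_simp
    · show c.x 1 k w ^ 3 * ((c.x 1 k w)⁻¹ / c.x 1 k w ^ 2) = 1
      field_simp

end Pool.Agent.MP_c69980_ag.H69
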