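import Pool.Agent.MP_c69980_ag.H4.Base

/-!
Gluing of potentials inside one chart.
-/

set_option autoImplicit false

namespace Pool.Agent.MP_c69980_ag.H69

open MvPolynomial Metric Filter Topology MeasureTheory Set Real
open scoped ContDiff Manifold
open H4
open H60 (PR)

/-- A cut-off function equal to `1` near `A`, supported in `G`, locally constant near `B`. -/
structure Cf (A G B : Set (Fin 2 → ℂ)) (χ : (Fin 2 → ℂ) → ℝ) : Prop where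
  sm : ContDiff ℝ ∞ χ
  cs : HasCompactSupport χ
  bd : ∀ q, 0 ≤ χ q ∧ χ q ≤ 1
  sub : tsupport χ ⊆ G
  one : A ⊆ interior {q | χ q = 1}
  cpt : IsCompact (tsupport (fderiv ℝ χ))
  der : ∀ q ∈ tsupport (fderiv ℝ χ), q ∈ G ∧ q ∉ interior {q | χ q = 1} ∧ q ∉ B

lemma cutoff {A G B : Set (Fin 2 → ℂ)} (hA : IsCompact A) (hG : IsOpen G) (hAG : A ⊆ G)
    (hB : B.Finite) : ∃ χ, Cf A G B χ := by
  have hA' : IsCompact (A ∪ B ∩ G) := hA.union (hB.inter_of_left G).isCompact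
  obtain ⟨L, L1, L2, L3⟩ := exists_compact_between hA' hG (union_subset hAG inter_subset_right)
  obtain ⟨f, f1, f0, fb⟩ := exists_contMDiffMap_one_nhds_of_subset_interior (n := ⊤)
    𝓘(ℝ, Fin 2 → ℂ) hA'.isClosed L2
  have hs : tsupport f ⊆ L :=
    closure_minimal (fun x hx => by_contra fun h => hx (f0 x h)) L1.isClosed
  have h1 : A ∪ B ∩ G ⊆ interior {q | f q = 1} := subset_interior_iff_mem_nhdsSet.2 f1
  have cs : HasCompactSupport f := L1.of_isClosed_subset (isClosed_tsupport _) hs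
  refine ⟨f, f.contMDiff.contDiff, cs, fun q => fb q, hs.trans L3, subset_union_left.trans h1,
    cs.fderiv ℝ, fun q hq => ?_⟩
  have a : q ∈ G := L3 (hs (tsupport_fderiv_subset ℝ hq))
  have b : q ∉ interior {q | f q = 1} := fun h => by
    refine (notMem_tsupport_iff_eventuallyEq.2 ?_) hq
    filter_upwards [isOpen_interior.mem_nhds h] with p hp
    have : (f : (Fin 2 → ℂ) → ℝ) =ᶠ[𝓝 p] fun _ => 1 := mem_interior_iff_mem_nhds.1 hp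
    rw [this.fderiv_eq]
    simp
  exact ⟨a, b, fun h => b (h1 (Or.inr ⟨h, a⟩))⟩

variable {C : Ctx} {c : Ch} {G K K' S : Set (Fin 2 → ℂ)} {v v₁ v₂ : ℕ → ℂ → ℝ}

lemma sep (hK : IsCompact K) (hS : S.Finite) (h : ∀ q ∈ K, q ∉ S) :
    ∃ r : ℝ, 0 < r ∧ ∀ q ∈ K, ∀ s ∈ S, r ≤ dist q s := by
  obtain ⟨r, r0, hr⟩ := hK.exists_thickening_subset_open hS.isClosed.isOpen_compl h
  exact ⟨r, r0, fun q hq s hs => not_lt.1 fun a =>
    hr (mem_thickening_iff.2 ⟨q, hq, by rwa [dist_comm]⟩) hs⟩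

lemma eul_mono (hC : C.Ok) (h : Eul C c v K) (hK : K' ⊆ K) : Eul C c v K' :=
  Null.mono hC h (.of_forall fun _ => .of_forall fun _ hz => ⟨dom_mono hK hz, le_rfl⟩)

lemma pot_get (h : Pot C c G S) (hS : S.Finite) (hK : IsCompact K) (hKG : K ⊆ G)
    (hKS : ∀ q ∈ K, q ∉ S) {η : ℝ} (hη : 0 < η) :
    ∃ v, Valid C (dom C c G) v η ∧ Eul C c v K := by
  obtain ⟨r, r0, hr⟩ := sep hK hS hKS
  obtain ⟨v, a, b⟩ := h η r hη r0
  exact ⟨v, a, b K hK hKG hr⟩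

lemma cut_mem {χ : (Fin 2 → ℂ) → ℝ} (h : ∀ q, 0 ≤ χ q ∧ χ q ≤ 1) (k : ℕ) (z : ℂ) :
    0 ≤ cut c χ k z ∧ cut c χ k z ≤ 1 := by
  unfold cut
  split_ifs
  · exact h _
  · exact ⟨le_rfl, zero_le_one⟩

lemma cut_eq {χ : (Fin 2 → ℂ) → ℝ} {k : ℕ} {z : ℂ} (h : z ∈ dom C c G k) :
    cut c χ k z = χ (c.pt k z) := if_pos h.2.1

lemma cut_ne {χ : (Fin 2 → ℂ) → ℝ} {k : ℕ} {z : ℂ} (hz : z ∈ C.Ω k) (h : cut c χ k z ≠ 0) :
    z ∈ dom C c (tsupport χ) k := by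
  unfold cut at h
  split_ifs at h with a
  · exact ⟨hz, a, subset_tsupport _ h⟩
  · exact absurd rfl h

lemma cut_one {χ : (Fin 2 → ℂ) → ℝ} {k : ℕ} {z : ℂ}
    (h : z ∈ dom C c (interior {q | χ q = 1}) k) : cut c χ k z = 1 := by
  rw [cut_eq h]
  exact interior_subset (s := {q | χ q = 1}) h.2.2

/-- A convex combination of two good potentials is good. -/
lemma eul_mix (hC : C.Ok) {K₁ K₂ : Set (Fin 2 → ℂ)} {t : ℕ → ℂ → ℝ} (h₁ : Eul C c v₁ K₁)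
    (h₂ : Eul C c v₂ K₂) (ht : ∀ k z, 0 ≤ t k z ∧ t k z ≤ 1)
    (H : ∀ᶠ k in atTop, ∀ z ∈ dom C c K k,
      (t k z ≠ 0 → c.pt k z ∈ K₁) ∧ (t k z ≠ 1 → c.pt k z ∈ K₂)) :
    Eul C c (fun k z => t k z * v₁ k z + (1 - t k z) * v₂ k z) K := by
  refine Null.cases hC h₁ h₂ (H.mono fun k hk => .of_forall fun z hz => ?_)
  obtain ⟨a, b⟩ := hk z hz
  obtain ⟨t0, t1⟩ := ht k z
  have n : 0 ≤ c.N2 k z := N2_nonneg
  by_cases e0 : t k z = 0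
  · exact Or.inr ⟨⟨hz.1, hz.2.1, b (by rw [e0]; exact zero_ne_one)⟩, by simp [e0]⟩
  by_cases e1 : t k z = 1
  · exact Or.inl ⟨⟨hz.1, hz.2.1, a e0⟩, by simp [e1]⟩
  have key : (t k z * v₁ k z + (1 - t k z) * v₂ k z - BR C c k z) ^ 2 ≤
      t k z * (v₁ k z - BR C c k z) ^ 2 + (1 - t k z) * (v₂ k z - BR C c k z) ^ 2 := by
    nlinarith [mul_nonneg (mul_nonneg t0 (sub_nonneg.2 t1)) (sq_nonneg (v₁ k z - v₂ k z))]
  rcases le_total ((v₁ k z - BR C c k z) ^ 2) ((v₂ k z - BR C c k z) ^ 2) with h | h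
  · refine Or.inr ⟨⟨hz.1, hz.2.1, b e1⟩, mul_le_mul_of_nonneg_right (key.trans ?_) n⟩
    nlinarith [mul_le_mul_of_nonneg_left h t0]
  · refine Or.inl ⟨⟨hz.1, hz.2.1, a e0⟩, mul_le_mul_of_nonneg_right (key.trans ?_) n⟩
    nlinarith [mul_le_mul_of_nonneg_left h (sub_nonneg.2 t1)]

lemma eul_cut (hC : C.Ok) {χ : (Fin 2 → ℂ) → ℝ} (hχ : ∀ q, 0 ≤ χ q ∧ χ q ≤ 1)
    (h₁ : Eul C c v₁ (K ∩ tsupport χ)) (h₂ : Eul C c v₂ (K \ interior {q | χ q = 1})) :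
    Eul C c (fun k z => cut c χ k z * v₁ k z + (1 - cut c χ k z) * v₂ k z) K :=
  eul_mix hC h₁ h₂ (cut_mem hχ) (.of_forall fun _ _ hz =>
    ⟨fun a => ⟨hz.2.2, (cut_ne hz.1 a).2.2⟩, fun a => ⟨hz.2.2, fun b => a (cut_one ⟨hz.1, hz.2.1, b⟩)⟩⟩)

lemma glue (patch : PatchStmt) (hC : C.Ok) (hc : ChOK C c) {A B : Set (Fin 2 → ℂ)}
    {χ : (Fin 2 → ℂ) → ℝ} (hχ : Cf A G B χ) (hK : IsCompact K) {η₀ : ℝ} (h0 : 0 < η₀) :
    ∃ η, 0 < η ∧ ∀ (O O₁ O₂ : ℕ → Set ℂ) (v₁ v₂ : ℕ → ℂ → ℝ),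
    (∀ᶠ k in atTop, IsOpen (O k) ∧ IsOpen (O₁ k) ∧ IsOpen (O₂ k) ∧ O k ⊆ C.Ω k ∧ ∀ z ∈ O k,
      (z ∈ dom C c (tsupport χ) k → z ∈ O₁ k) ∧
      (z ∉ dom C c (interior {q | χ q = 1}) k → z ∈ O₂ k) ∧
      (z ∈ dom C c (tsupport (fderiv ℝ χ)) k → c.pt k z ∈ K)) →
    Valid C O₁ v₁ η → Valid C O₂ v₂ η → Eul C c v₁ K → Eul C c v₂ K →
    Valid C O (fun k z => cut c χ k z * v₁ k z + (1 - cut c χ k z) * v₂ k z) η₀ := by
  obtain ⟨η, a, b⟩ := patch C c χ K η₀ hC hc hχ.sm hχ.cs hχ.bd hK h0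
  refine ⟨η, a, fun O O₁ O₂ v₁ v₂ H V₁ V₂ E₁ E₂ => b O O₁ O₂ v₁ v₂ H V₁ V₂ ?_⟩
  refine Null.mono hC (Null.add hC (Null.smul E₁ two_pos) (Null.smul E₂ two_pos))
    (.of_forall fun k => .of_forall fun z hz => ⟨hz.2, ?_⟩)
  have n : 0 ≤ c.N2 k z := N2_nonneg
  nlinarith [mul_nonneg (sq_nonneg (v₁ k z + v₂ k z - 2 * BR C c k z)) n]

theorem finPatch (patch : PatchStmt) : FinPatchStmt := by
  intro A₁ A₂ G₁ G₂ S₁ S₂ a₁ a₂ g₁ g₂ s₁ s₂ f₁ f₂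
  obtain ⟨χ, hχ⟩ := cutoff a₁ g₁ s₁ (f₁.union f₂)
  obtain ⟨L, L1, L2, L3⟩ := exists_compact_between a₂ g₂ s₂
  have i1 : interior {q | χ q = 1} ⊆ G₁ := fun q hq => hχ.sub (subset_tsupport _ (by
    have : χ q = 1 := interior_subset (s := {q | χ q = 1}) hq
    simp [this]))
  have go : IsOpen (interior {q | χ q = 1} ∪ interior L) := isOpen_interior.union isOpen_interior
  refine ⟨_, go, union_subset_union hχ.one L2,
    union_subset_union i1 (interior_subset.trans L3), fun C c hC hc P₁ P₂ η₀ r h0 r0 => ?_⟩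
  have hK : IsCompact (tsupport (fderiv ℝ χ) ∩ L) := hχ.cpt.inter L1
  obtain ⟨r₁, r1, hr⟩ := sep hK (f₁.union f₂) fun q hq => (hχ.der q hq.1).2.2
  obtain ⟨η, η0, hη⟩ := glue patch hC hc hχ hK h0
  obtain ⟨v₁, V₁, E₁⟩ := P₁ η (min r r₁) η0 (lt_min r0 r1)
  obtain ⟨v₂, V₂, E₂⟩ := P₂ η (min r r₁) η0 (lt_min r0 r1)
  refine ⟨_, hη _ _ _ v₁ v₂ (.of_forall fun k => ⟨dom_open hC go k, dom_open hC g₁ k,
    dom_open hC g₂ k, fun z hz => hz.1, fun z hz => ⟨fun a => dom_mono hχ.sub a, fun a => ?_,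
      fun a => ⟨a.2.2, ?_⟩⟩⟩) V₁ V₂
    (E₁ _ hK (fun q hq => (hχ.der q hq.1).1) fun q hq s hs =>
      (min_le_right _ _).trans (hr q hq s (Or.inl hs)))
    (E₂ _ hK (fun q hq => L3 hq.2) fun q hq s hs =>
      (min_le_right _ _).trans (hr q hq s (Or.inr hs))), fun K k1 k2 k3 => ?_⟩
  · exact ⟨hz.1, hz.2.1, L3 (interior_subset (hz.2.2.resolve_left fun b => a ⟨hz.1, hz.2.1, b⟩))⟩
  · exact interior_subset (hz.2.2.resolve_left (hχ.der _ a.2.2).2.1)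
  · exact eul_cut hC hχ.bd
      (E₁ _ (k1.inter_right (isClosed_tsupport _)) (fun q hq => hχ.sub hq.2) fun q hq s hs =>
        (min_le_left _ _).trans (k3 q hq.1 s (Or.inl hs)))
      (E₂ _ (k1.diff isOpen_interior)
        (fun q hq => L3 (interior_subset ((k2 hq.1).resolve_left hq.2))) fun q hq s hs =>
        (min_le_left _ _).trans (k3 q hq.1 s (Or.inr hs)))

theorem base (patch : PatchStmt) : BaseStmt := by
  intro S G q hS hG hq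
  obtain ⟨χ, hχ⟩ := cutoff isCompact_singleton hG (singleton_subset_iff.2 hq) hS
  refine ⟨_, isOpen_interior, hχ.one rfl, fun C c w hC hc P W E η₀ h0 => ?_⟩
  obtain ⟨r₁, r1, hr⟩ := sep hχ.cpt hS fun q hq => (hχ.der q hq).2.2
  obtain ⟨R, R0, hR⟩ := hχ.cpt.isBounded.subset_closedBall_lt 0 0
  obtain ⟨η, η0, hη⟩ := glue patch hC hc hχ hχ.cpt h0
  obtain ⟨v, V, E'⟩ := P η (min R⁻¹ r₁) η0 (lt_min (inv_pos.2 R0) r1)
  refine ⟨_, hη _ _ _ w v (.of_forall fun k => ⟨hC.1 k, dom_open hC hG k, hC.1 k, Subset.rfl,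
    fun z hz => ⟨fun a => dom_mono hχ.sub a, fun _ => hz, fun a => a.2.2⟩⟩) (W η η0) V
    (E _ hχ.cpt fun q hq => (hχ.der q hq).1)
    (E' _ hχ.cpt (hR.trans (closedBall_subset_closedBall ?_)) fun q hq s hs =>
      (min_le_right _ _).trans (hr q hq s hs)), fun k z hz => ?_⟩
  · exact (le_inv_comm₀ R0 (lt_min (inv_pos.2 R0) r1)).2 (min_le_left _ _)
  · simp [cut_one hz]

end Pool.Agent.MP_c69980_ag.H69
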