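import Pool.Agent.MP_c69980_ag.H69.Glue

/-!
Gluing of potentials along a divisor covered by two charts.
-/

set_option autoImplicit false

noncomputable section

namespace Pool.Agent.MP_c69980_ag.H69

open MvPolynomial Metric Filter Topology MeasureTheory Set Real
open scoped ContDiff
open H4
open H60 (PR)

lemma chain' {x : ℂ → Fin 2 → ℂ} {v : Fin 2 → ℂ} {z : ℂ} (h : HasDerivAt x v z) (P : PR 2) :
    HasDerivAt (fun z => eval (x z) P) (∑ j, eval (x z) (pderiv j P) * v j) z := by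
  induction P using MvPolynomial.induction_on with
  | C c => simpa using hasDerivAt_const z c
  | add p q hp hq => simpa [add_mul, Finset.sum_add_distrib, add_add_add_comm] using hp.fun_add hq
  | mul_X p i hp =>
    have := hp.fun_mul (hasDerivAt_pi.1 h i)
    simp only [map_mul, eval_X]
    refine this.congr_deriv ?_
    simp only [Derivation.leibniz, smul_eq_mul, map_add, map_mul, add_mul, Finset.sum_add_distrib,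
      eval_X, pderiv_X, mul_assoc, ← Finset.mul_sum]
    simp [Pi.single_apply, apply_ite (eval (x z)), mul_comm, add_comm]

/-- A local change of coordinates that respects the curves. -/
structure Mv (θ θ' : PR 2) (Ψ : (Fin 2 → ℂ) → Fin 2 → ℂ) (υ : (Fin 2 → ℂ) → ℂ)
    (q : Fin 2 → ℂ) : Prop where
  an : AnalyticAt ℂ Ψ q
  au : AnalyticAt ℂ υ q
  jn : jac Ψ q ≠ 0
  un : υ q ≠ 0
  ev : ∀ᶠ p in 𝓝 q, eval (Ψ p) θ' = υ p * eval p θ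

variable {θ θ' θ₁ θ₂ : PR 2} {Ψ : (Fin 2 → ℂ) → Fin 2 → ℂ} {υ : (Fin 2 → ℂ) → ℂ} {q : Fin 2 → ℂ}

lemma Mv.ns (h : Mv θ θ' Ψ υ q)
    (H : eval (Ψ q) θ' = 0 → ∃ i, eval (Ψ q) (pderiv i θ') ≠ 0) (h0 : eval q θ = 0) :
    ∃ i, eval q (pderiv i θ) ≠ 0 := by
  by_contra hn
  push Not at hn
  obtain ⟨j, hj⟩ := H (by rw [h.ev.self_of_nhds, h0, mul_zero])
  have key : ∀ e : Fin 2 → ℂ, ∑ j, eval (Ψ q) (pderiv j θ') * fderiv ℂ Ψ q e j = 0 := by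
    intro e
    have l0 : q + (0 : ℂ) • e = q := by simp
    have l1 : HasDerivAt (fun t : ℂ => q + t • e) e 0 := by
      simpa using ((hasDerivAt_id (0 : ℂ)).smul_const e).const_add q
    have l2 := chain' (h.an.differentiableAt.hasFDerivAt.comp_hasDerivAt_of_eq 0 l1 l0.symm) θ'
    have l3 := (h.au.differentiableAt.hasFDerivAt.comp_hasDerivAt_of_eq 0 l1 l0.symm).fun_mul
      (chain' l1 θ)
    have l4 : ∀ᶠ t : ℂ in 𝓝 0, eval (Ψ (q + t • e)) θ' = υ (q + t • e) * eval (q + t • e) θ :=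
      l1.continuousAt.tendsto.eventually (by rw [l0]; exact h.ev)
    have l5 := l2.unique (l3.congr_of_eventuallyEq l4)
    simpa [h0, hn] using l5
  have k0 := key (Pi.single 0 1)
  have k1 := key (Pi.single 1 1)
  rw [Fin.sum_univ_two] at k0 k1
  have hJ := h.jn
  unfold jac at hJ
  refine hj (mul_right_cancel₀ hJ ?_)
  fin_cases j
  · simp only [Fin.zero_eta]
    linear_combination fderiv ℂ Ψ q (Pi.single 1 1) 1 * k0 - fderiv ℂ Ψ q (Pi.single 0 1) 1 * k1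
  · simp only [Fin.mk_one]
    linear_combination fderiv ℂ Ψ q (Pi.single 0 1) 0 * k1 - fderiv ℂ Ψ q (Pi.single 1 1) 0 * k0

variable {C : Ctx} {c c' : Ch} {K : Set (Fin 2 → ℂ)} {v : ℕ → ℂ → ℝ} {k : ℕ} {z : ℂ}

lemma pt_move (hM : ∀ i, Mer (C.Ω k) (c'.x i k)) (hz : z ∈ dom C c K k)
    (hΨ : ContinuousAt Ψ (c.pt k z)) (H : ∀ᶠ w in 𝓝[≠] z, c'.pt k w = Ψ (c.pt k w)) (i : Fin 2) :
    AnalyticAt ℂ (c'.x i k) z ∧ c'.x i k =ᶠ[𝓝 z] fun w => Ψ (c.pt k w) i :=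
  (hM i).eq hz.1 ((continuous_apply i).continuousAt.comp (hΨ.comp (pt_an hz).continuousAt))
    (H.mono fun _ a => congrFun a i)

lemma eul_move (cmp : CmpStmt) (change : ChangeStmt) (hC : C.Ok) (hc : ChOK C c) (hc' : ChOK C c')
    (hK : IsCompact K) (hM : ∀ q ∈ K, Mv c.θ c'.θ Ψ υ q) (hN : NS c.θ K ∅)
    (H : ∀ᶠ k in atTop, ∀ z ∈ C.Ω k, ∀ᶠ w in 𝓝[≠] z, c'.pt k w = Ψ (c.pt k w) ∧
      ‖c.b k w‖ = ‖c'.b k w‖ * ‖jac Ψ (c.pt k w)‖ ^ C.m)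
    (hE : Eul C c' v (Ψ '' K)) : Eul C c v K := by
  have r0 : Rel0 C c c' Ψ K := by
    filter_upwards [hc'.1, H] with k a b z hz i
    exact (pt_move a.1 hz (hM _ hz.2.2).an.continuousAt ((b z hz.1).mono fun _ h => h.1) i).2
  have r1 : Rel C c c' Ψ K := ⟨r0, H.mono fun k b =>
    (ae_of_punct (hC.1 k) fun z hz => (b z hz).mono fun _ h => h.2).mono fun z a hz => a hz.1⟩
  refine (change C c c' K Ψ υ hC hc hK (fun q hq => (hM q hq).an) (fun q hq => (hM q hq).au)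
    (fun q hq => ⟨(hM q hq).jn, (hM q hq).un, (hM q hq).ev⟩) hN r1 v).1 ?_
  exact Null.mono hC hE ((cmp C c c' K Ψ hK (fun q hq => (hM q hq).an) r0).1.mono fun k a =>
    .of_forall fun z hz => ⟨a hz, le_rfl⟩)

/-- The identity or the inversion. -/
structure Lam (l : ℂ → ℂ) : Prop where
  an : ∀ t ≠ 0, AnalyticAt ℂ l t
  ne : ∀ t ≠ 0, l t ≠ 0
  mul : ∀ s t, l (s * t) = l s * l t
  inv : ∀ t, l (l t) = t
  der : ∀ t ≠ 0, ‖deriv l t‖ = ‖l t / t‖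
  bd : ∀ t, ‖l t‖ ≤ ‖t‖ + ‖t‖⁻¹

lemma lam_id : Lam id :=
  ⟨fun _ _ => analyticAt_id, fun _ h => h, fun _ _ => rfl, fun _ => rfl,
    fun t h => by simp [h], fun t => by simp⟩

lemma lam_inv : Lam fun t => t⁻¹ :=
  ⟨fun _ h => analyticAt_id.inv h,
    fun _ h => inv_ne_zero h, fun _ _ => mul_inv _ _, fun _ => inv_inv _,
    fun t h => by simp [div_eq_mul_inv, pow_two], fun t => by simp⟩

def P1 (l : ℂ → ℂ) (p : Fin 2 → ℂ) : Fin 2 → ℂ := ![l (p 0), p 1 * (p 0)⁻¹]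
def P2 (l : ℂ → ℂ) (p : Fin 2 → ℂ) : Fin 2 → ℂ := ![p 0 * (p 1)⁻¹, l (p 1)]
def P3 (l : ℂ → ℂ) (p : Fin 2 → ℂ) : Fin 2 → ℂ := ![p 1 * l (p 0), (p 0)⁻¹]

lemma an_co (i : Fin 2) (q : Fin 2 → ℂ) : AnalyticAt ℂ (fun p : Fin 2 → ℂ => p i) q :=
  (ContinuousLinearMap.proj (R := ℂ) (φ := fun _ : Fin 2 => ℂ) i).analyticAt q

lemma jac_eq {f g : (Fin 2 → ℂ) → ℂ} {F G : (Fin 2 → ℂ) →L[ℂ] ℂ} (hf : HasFDerivAt f F q)
    (hg : HasFDerivAt g G q) : jac (fun p => ![f p, g p]) q =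
      F (Pi.single 0 1) * G (Pi.single 1 1) - F (Pi.single 1 1) * G (Pi.single 0 1) := by
  have : HasFDerivAt (fun p => ![f p, g p]) (ContinuousLinearMap.pi ![F, G]) q :=
    hasFDerivAt_pi.2 (Fin.forall_fin_two.2 ⟨hf, hg⟩)
  unfold jac
  rw [this.fderiv]
  simp

lemma fd_co {f : ℂ → ℂ} (i : Fin 2) (hf : DifferentiableAt ℂ f (q i)) :
    HasFDerivAt (fun p : Fin 2 → ℂ => f (p i))
      (deriv f (q i) • ContinuousLinearMap.proj (R := ℂ) (φ := fun _ : Fin 2 => ℂ) i) q :=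
  hf.hasDerivAt.comp_hasFDerivAt q (hasFDerivAt_apply i q)

variable {l : ℂ → ℂ}

lemma P1_an (hl : Lam l) (h : q 0 ≠ 0) : AnalyticAt ℂ (P1 l) q :=
  analyticAt_pi_iff.2 (Fin.forall_fin_two.2
    ⟨(hl.an _ h).comp_of_eq (an_co 0 q) rfl, (an_co 1 q).mul ((an_co 0 q).inv h)⟩)

lemma P2_an (hl : Lam l) (h : q 1 ≠ 0) : AnalyticAt ℂ (P2 l) q :=
  analyticAt_pi_iff.2 (Fin.forall_fin_two.2
    ⟨(an_co 0 q).mul ((an_co 1 q).inv h), (hl.an _ h).comp_of_eq (an_co 1 q) rfl⟩)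

lemma P3_an (hl : Lam l) (h : q 0 ≠ 0) : AnalyticAt ℂ (P3 l) q :=
  analyticAt_pi_iff.2 (Fin.forall_fin_two.2
    ⟨(an_co 1 q).mul ((hl.an _ h).comp_of_eq (an_co 0 q) rfl), (an_co 0 q).inv h⟩)

lemma P1_jac (hl : Lam l) (h : q 0 ≠ 0) : ‖jac (P1 l) q‖ = ‖l (q 0) / q 0 ^ 2‖ := by
  have := jac_eq (fd_co 0 (hl.an _ h).differentiableAt)
    ((hasFDerivAt_apply (𝕜 := ℂ) 1 q).fun_mul (fd_co 0 (differentiableAt_inv h)))
  unfold P1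
  rw [this]
  simp [hl.der _ h, div_eq_mul_inv, pow_two, mul_assoc]

lemma P2_jac (hl : Lam l) (h : q 1 ≠ 0) : ‖jac (P2 l) q‖ = ‖l (q 1) / q 1 ^ 2‖ := by
  have := jac_eq ((hasFDerivAt_apply (𝕜 := ℂ) 0 q).fun_mul (fd_co 1 (differentiableAt_inv h)))
    (fd_co 1 (hl.an _ h).differentiableAt)
  unfold P2
  rw [this]
  simp [hl.der _ h, div_eq_mul_inv, pow_two, mul_assoc, mul_comm]

lemma P3_jac (hl : Lam l) (h : q 0 ≠ 0) : ‖jac (P3 l) q‖ = ‖l (q 0) / q 0 ^ 2‖ := by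
  have := jac_eq
    ((hasFDerivAt_apply (𝕜 := ℂ) 1 q).fun_mul (fd_co 0 (hl.an _ h).differentiableAt))
    (fd_co 0 (differentiableAt_inv h))
  unfold P3
  rw [this]
  simp [div_eq_mul_inv]

lemma jac_ne (hl : Lam l) {t J : ℂ} (h : t ≠ 0) (e : ‖J‖ = ‖l t / t ^ 2‖) : J ≠ 0 := by
  rw [← norm_ne_zero_iff, e, norm_ne_zero_iff]
  exact div_ne_zero (hl.ne _ h) (pow_ne_zero _ h)

/-- The equations of the curve in the three charts. -/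
structure Eqs (l : ℂ → ℂ) (θ θ₁ θ₂ : PR 2) (ν : ℕ) : Prop where
  e1 : ∀ q : Fin 2 → ℂ, q 0 ≠ 0 → eval (P1 l q) θ₁ = (q 0)⁻¹ ^ ν * eval q θ
  e2 : ∀ q : Fin 2 → ℂ, q 1 ≠ 0 → eval (P2 l q) θ₂ = (q 1)⁻¹ ^ ν * eval q θ
  d1 : X 0 ∣ θ₁
  d2 : X 1 ∣ θ₂

variable {ν : ℕ}

lemma ev_ne (i : Fin 2) (h : q i ≠ 0) : ∀ᶠ p : Fin 2 → ℂ in 𝓝 q, p i ≠ 0 :=
  (an_co i q).continuousAt.eventually_ne h

lemma mv1 (hl : Lam l) (he : Eqs l θ θ₁ θ₂ ν) (h : q 0 ≠ 0) :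
    Mv θ θ₁ (P1 l) (fun p => (p 0)⁻¹ ^ ν) q :=
  ⟨P1_an hl h, ((an_co 0 q).inv h).pow ν, jac_ne hl h (P1_jac hl h),
    pow_ne_zero _ (inv_ne_zero h), (ev_ne 0 h).mono he.e1⟩

lemma mv2 (hl : Lam l) (he : Eqs l θ θ₁ θ₂ ν) (h : q 1 ≠ 0) :
    Mv θ θ₂ (P2 l) (fun p => (p 1)⁻¹ ^ ν) q :=
  ⟨P2_an hl h, ((an_co 1 q).inv h).pow ν, jac_ne hl h (P2_jac hl h),
    pow_ne_zero _ (inv_ne_zero h), (ev_ne 1 h).mono he.e2⟩

lemma P3_P2 (hl : Lam l) (h0 : q 0 ≠ 0) (h1 : q 1 ≠ 0) : P3 l (P2 l q) = P1 l q := by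
  ext i
  fin_cases i
  · simp only [P1, P2, P3, Fin.zero_eta, Matrix.cons_val_zero, Matrix.cons_val_one]
    rw [← hl.mul]
    congr 1
    field_simp
  · simp [P1, P2, P3]

lemma mv3 (hl : Lam l) (he : Eqs l θ θ₁ θ₂ ν) (h : q 0 ≠ 0) :
    Mv θ₂ θ₁ (P3 l) (fun p => (p 0)⁻¹ ^ ν) q := by
  refine ⟨P3_an hl h, ((an_co 0 q).inv h).pow ν, jac_ne hl h (P3_jac hl h),
    pow_ne_zero _ (inv_ne_zero h), (ev_ne 0 h).mono fun p hp => ?_⟩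
  by_cases h1 : p 1 = 0
  · obtain ⟨a, ha⟩ := he.d1
    obtain ⟨b, hb⟩ := he.d2
    simp [ha, hb, P3, h1]
  · have y0 := hl.ne _ h1
    have e : P2 l ![p 0 * l (p 1), l (p 1)] = p := by
      ext i
      fin_cases i
      · simp [P2, y0]
      · simp [P2, hl.inv]
    have a0 : (![p 0 * l (p 1), l (p 1)] : Fin 2 → ℂ) 0 ≠ 0 := mul_ne_zero hp y0
    have a1 : (![p 0 * l (p 1), l (p 1)] : Fin 2 → ℂ) 1 ≠ 0 := y0
    have e1 := he.e1 _ a0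
    have e2 := he.e2 _ a1
    rw [← P3_P2 hl a0 a1, e] at e1
    rw [e] at e2
    rw [e1, e2]
    simp only [Matrix.cons_val_zero, Matrix.cons_val_one, mul_inv, mul_pow, mul_assoc]

/-- The point is close to the divisor. -/
def Nr (l : ℂ → ℂ) (ε δ : ℝ) (q : Fin 2 → ℂ) : Prop :=
  (‖q 1‖ ≤ 2 / ε * ‖q 0‖ → ‖l (q 0)‖ ≤ δ) ∧ (‖q 0‖ ≤ ε * ‖q 1‖ → ‖l (q 1)‖ ≤ δ)

lemma nrm2 {r : ℝ} (h : 0 ≤ r) : ‖q‖ ≤ r ↔ ‖q 0‖ ≤ r ∧ ‖q 1‖ ≤ r := by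
  rw [pi_norm_le_iff_of_nonneg h, Fin.forall_fin_two]

lemma ne0 {a : ℝ} (h : q ≠ 0) (H : ‖q 1‖ ≤ a * ‖q 0‖) : q 0 ≠ 0 := fun e => h (by
  rw [e, norm_zero, mul_zero, norm_le_zero_iff] at H
  ext i
  fin_cases i
  · exact e
  · exact H)

lemma ne1 {a : ℝ} (h : q ≠ 0) (H : ‖q 0‖ ≤ a * ‖q 1‖) : q 1 ≠ 0 := fun e => h (by
  rw [e, norm_zero, mul_zero, norm_le_zero_iff] at H
  ext i
  fin_cases i
  · exact H
  · exact e)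

lemma quo_le {s t : ℂ} {a : ℝ} (h : t ≠ 0) : ‖s * t⁻¹‖ ≤ a ↔ ‖s‖ ≤ a * ‖t‖ := by
  rw [norm_mul, norm_inv, ← div_eq_mul_inv, div_le_iff₀ (norm_pos_iff.2 h)]

lemma bdd_at {A : Set ℂ} {f : ℂ → ℂ} (hf : Mer A f) (hz : z ∈ A) {B : ℝ}
    (H : ∀ᶠ w in 𝓝[≠] z, ‖f w‖ ≤ B) : AnalyticAt ℂ f z ∧ ‖f z‖ ≤ B :=
  ⟨hf.an hz H, le_of_tendsto ((hf.an hz H).continuousAt.norm.tendsto.mono_left
    nhdsWithin_le_nhds) H⟩

lemma tube {G : Set (Fin 2 → ℂ)} {a : ℝ} (hG : IsOpen G) (ha : 0 ≤ a)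
    (h : ∀ q : Fin 2 → ℂ, q 0 = 0 → ‖q 1‖ ≤ a → q ∈ G) :
    ∃ δ : ℝ, 0 < δ ∧ ∀ q : Fin 2 → ℂ, ‖q 0‖ ≤ δ → ‖q 1‖ ≤ a → q ∈ G := by
  have hK : IsCompact (closedBall (0 : Fin 2 → ℂ) a ∩ {q | q 0 = 0}) :=
    (isCompact_closedBall _ _).inter_right (isClosed_eq (continuous_apply 0) continuous_const)
  obtain ⟨δ, d0, hd⟩ := hK.exists_cthickening_subset_open hG fun q hq =>
    h q hq.2 ((norm_le_pi_norm q 1).trans (mem_closedBall_zero_iff.1 hq.1))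
  refine ⟨δ, d0, fun q a0 a1 => hd (mem_cthickening_of_dist_le q ![0, q 1] δ _ ⟨?_, rfl⟩ ?_)⟩
  · rw [mem_closedBall_zero_iff, nrm2 ha]
    simpa using ⟨ha, a1⟩
  · rw [dist_eq_norm, nrm2 d0.le]
    simpa using ⟨a0, d0.le⟩

theorem near (cmp : CmpStmt) (change : ChangeStmt) (patch : PatchStmt) (hl : Lam l)
    (he : Eqs l θ θ₁ θ₂ ν) {G₁ G₂ S₁ : Set (Fin 2 → ℂ)} {ε : ℝ} (e0 : 0 < ε) (g₁ : IsOpen G₁)
    (g₂ : IsOpen G₂) (b₂ : ball 0 ε ⊆ G₂)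
    (t₁ : ∀ q : Fin 2 → ℂ, q 0 = 0 → ‖q 1‖ ≤ 2 / ε → q ∈ G₁) (f₁ : S₁.Finite)
    (s₁ : ∀ q ∈ S₁, q 0 = 0) (n₁ : NS θ₁ G₁ S₁) (n₂ : NS θ₂ G₂ {0}) :
    ∃ δ : ℝ, 0 < δ ∧
      (∀ q, q ≠ 0 → Nr l ε δ q → eval q θ = 0 → ∃ i, eval q (pderiv i θ) ≠ 0) ∧
      ∀ (C : Ctx) (c c₁ c₂ : Ch) (O : ℕ → Set ℂ), C.Ok → ChOK C c → ChOK C c₁ → ChOK C c₂ →
      c.θ = θ → c₁.θ = θ₁ → c₂.θ = θ₂ →
      (∀ᶠ k in atTop, ∀ z ∈ C.Ω k, ∀ᶠ w in 𝓝[≠] z, c.pt k w 0 ≠ 0 ∧ c.pt k w 1 ≠ 0 ∧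
        c₁.pt k w = P1 l (c.pt k w) ∧ c₂.pt k w = P2 l (c.pt k w) ∧
        ‖c.b k w‖ = ‖c₁.b k w‖ * ‖l (c.pt k w 0) / c.pt k w 0 ^ 2‖ ^ C.m ∧
        ‖c.b k w‖ = ‖c₂.b k w‖ * ‖l (c.pt k w 1) / c.pt k w 1 ^ 2‖ ^ C.m) →
      (∀ᶠ k in atTop, IsOpen (O k) ∧ O k ⊆ C.Ω k ∧
        ∀ z ∈ O k, ∀ᶠ w in 𝓝[≠] z, Nr l ε δ (c.pt k w)) →
      Pot C c₁ G₁ S₁ → Pot C c₂ G₂ {0} → ∀ η₀ : ℝ, 0 < η₀ → ∀ K, IsCompact K →
      (∀ q ∈ K, q ≠ 0 ∧ Nr l ε δ q) → ∃ v, Valid C O v η₀ ∧ Eul C c v K := by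
  obtain ⟨δ₁, d1, hd⟩ := tube g₁ (by positivity) t₁
  obtain ⟨δ, d0, da, db, dc⟩ : ∃ δ : ℝ, 0 < δ ∧ δ ≤ δ₁ ∧ δ ≤ ε / 2 ∧ δ * (ε + 2 / ε) ≤ δ₁ :=
    ⟨min (min δ₁ (ε / 2)) (δ₁ / (ε + 2 / ε)), by positivity,
      (min_le_left _ _).trans (min_le_left _ _), (min_le_left _ _).trans (min_le_right _ _),
      (le_div_iff₀ (by positivity)).1 (min_le_right _ _)⟩
  have m1 : ∀ q : Fin 2 → ℂ, q ≠ 0 → Nr l ε δ q → ‖q 1‖ ≤ 2 / ε * ‖q 0‖ →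
      P1 l q ∈ G₁ ∧ P1 l q ∉ S₁ := fun q a b h =>
    ⟨hd _ ((b.1 h).trans da) ((quo_le (ne0 a h)).2 h), fun s => hl.ne _ (ne0 a h) (s₁ _ s)⟩
  have m2 : ∀ q : Fin 2 → ℂ, q ≠ 0 → Nr l ε δ q → ‖q 0‖ ≤ 3 * ε / 4 * ‖q 1‖ →
      P2 l q ∈ G₂ ∧ P2 l q ∉ ({0} : Set (Fin 2 → ℂ)) := fun q a b h => by
    refine ⟨b₂ (mem_ball_zero_iff.2 (lt_of_le_of_lt ((nrm2 (by positivity)).2
      ⟨(quo_le (ne1 a h)).2 h, (b.2 (h.trans ?_)).trans (by linarith)⟩) (by linarith))),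
      fun s => hl.ne _ (ne1 a h) (congrFun s 1)⟩
    exact mul_le_mul_of_nonneg_right (by linarith) (norm_nonneg _)
  have alt : ∀ q : Fin 2 → ℂ, ¬‖q 1‖ ≤ 2 / ε * ‖q 0‖ → ‖q 0‖ ≤ ε / 2 * ‖q 1‖ := fun q h => by
    rw [not_le, div_mul_eq_mul_div, div_lt_iff₀ e0] at h
    linarith
  have alt' : ∀ q : Fin 2 → ℂ, ‖q 0‖ ≤ ε / 2 * ‖q 1‖ → ‖q 0‖ ≤ 3 * ε / 4 * ‖q 1‖ := fun q h =>
    h.trans (mul_le_mul_of_nonneg_right (by linarith) (norm_nonneg _))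
  have ns : ∀ q, q ≠ 0 → Nr l ε δ q → eval q θ = 0 → ∃ i, eval q (pderiv i θ) ≠ 0 := by
    intro q a b
    by_cases h : ‖q 1‖ ≤ 2 / ε * ‖q 0‖
    · exact (mv1 hl he (ne0 a h)).ns (n₁ _ (m1 q a b h).1 (m1 q a b h).2)
    · have h' := alt' q (alt q h)
      exact (mv2 hl he (ne1 a h')).ns (n₂ _ (m2 q a b h').1 (m2 q a b h').2)
  refine ⟨δ, d0, ns, fun C c c₁ c₂ O hC hc hc₁ hc₂ q0 q1 q2 H HO P₁ P₂ η₀ h0 K hK hN => ?_⟩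
  subst q0 q1 q2
  obtain ⟨χ, hχ⟩ := cutoff (isCompact_closedBall (0 : Fin 2 → ℂ) (ε / 2)) isOpen_ball
    (closedBall_subset_ball (show ε / 2 < 3 * ε / 4 by linarith))
    (f₁.image fun s => (![(s 1)⁻¹, 0] : Fin 2 → ℂ))
  obtain ⟨L, hL⟩ : ∃ L, L = tsupport (fderiv ℝ χ) ∩ {q | ‖q 1‖ ≤ δ} := ⟨_, rfl⟩
  have cL : IsCompact L := hL ▸ hχ.cpt.inter_right (isClosed_le (by fun_prop) continuous_const)
  have pL : ∀ q ∈ L, ‖q‖ < 3 * ε / 4 ∧ ε / 2 < ‖q 0‖ ∧ q 0 ≠ 0 ∧ P3 l q ∈ G₁ ∧ P3 l q ∉ S₁ := by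
    intro q hq
    rw [hL] at hq
    obtain ⟨a, b, d⟩ := hχ.der q hq.1
    rw [mem_ball_zero_iff] at a
    have y1 : ‖q 1‖ ≤ δ := hq.2
    have x1 : ε / 2 < ‖q 0‖ := not_le.1 fun h => b (hχ.one (mem_closedBall_zero_iff.2
      ((nrm2 (by positivity)).2 ⟨h, y1.trans db⟩)))
    have x0 : q 0 ≠ 0 := norm_pos_iff.1 ((half_pos e0).trans x1)
    have x2 : ‖q 0‖⁻¹ ≤ 2 / ε := by
      rw [← inv_div]
      exact inv_anti₀ (half_pos e0) x1.le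
    refine ⟨a, x1, x0, hd _ ?_ ?_, fun s => d ⟨_, s, ?_⟩⟩
    · refine le_trans ?_ dc
      have x3 := norm_le_pi_norm q 0
      exact (norm_mul _ _).trans_le (mul_le_mul y1 ((hl.bd _).trans (by linarith))
        (norm_nonneg _) d0.le)
    · exact (norm_inv _).trans_le x2
    · have : q 1 = 0 := (mul_eq_zero.1 (s₁ _ s)).resolve_right (hl.ne _ x0)
      ext i
      fin_cases i
      · simp [P3]
      · simp [this]
  have cK₁ : IsCompact (K ∩ {q | ‖q 1‖ ≤ 2 / ε * ‖q 0‖}) :=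
    hK.inter_right (isClosed_le (by fun_prop) (by fun_prop))
  have cK₂ : IsCompact (K ∩ {q | ‖q 0‖ ≤ 3 * ε / 4 * ‖q 1‖}) :=
    hK.inter_right (isClosed_le (by fun_prop) (by fun_prop))
  obtain ⟨η, η0, hη⟩ := glue patch hC hc₂ hχ cL h0
  obtain ⟨v₁, V₁, E₁⟩ := pot_get P₁ f₁
    ((cL.image_of_continuousOn fun q hq =>
      (P3_an hl (pL q hq).2.2.1).continuousAt.continuousWithinAt).union
      (cK₁.image_of_continuousOn fun q hq =>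
        (P1_an hl (ne0 (hN q hq.1).1 hq.2)).continuousAt.continuousWithinAt))
    (by
      rintro _ (⟨q, hq, rfl⟩ | ⟨q, hq, rfl⟩)
      exacts [(pL q hq).2.2.2.1, (m1 q (hN q hq.1).1 (hN q hq.1).2 hq.2).1])
    (by
      rintro _ (⟨q, hq, rfl⟩ | ⟨q, hq, rfl⟩)
      exacts [(pL q hq).2.2.2.2, (m1 q (hN q hq.1).1 (hN q hq.1).2 hq.2).2]) η0
  have inG : ∀ q ∈ L, q ∈ G₂ ∧ q ∉ ({0} : Set (Fin 2 → ℂ)) := fun q hq =>
    ⟨b₂ (mem_ball_zero_iff.2 ((pL q hq).1.trans (by linarith))),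
      fun s => (pL q hq).2.2.1 (congrFun s 0)⟩
  obtain ⟨v₂, V₂, E₂⟩ := pot_get P₂ (finite_singleton 0)
    (cL.union (cK₂.image_of_continuousOn fun q hq =>
        (P2_an hl (ne1 (hN q hq.1).1 hq.2)).continuousAt.continuousWithinAt))
    (by
      rintro _ (hq | ⟨q, hq, rfl⟩)
      exacts [(inG _ hq).1, (m2 q (hN q hq.1).1 (hN q hq.1).2 hq.2).1])
    (by
      rintro _ (hq | ⟨q, hq, rfl⟩)
      exacts [(inG _ hq).2, (m2 q (hN q hq.1).1 (hN q hq.1).2 hq.2).2]) η0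
  have F₁ : Eul C c₂ v₁ L := by
    refine eul_move cmp change hC hc₂ hc₁ cL (fun q hq => mv3 hl he (pL q hq).2.2.1)
      (fun q hq _ => n₂ q (inG q hq).1 (inG q hq).2) ?_ (eul_mono hC E₁ subset_union_left)
    filter_upwards [H] with k hk z hz
    filter_upwards [hk z hz] with w ⟨x0, y0, a1, a2, b1, b2⟩
    have u0 : P2 l (c.pt k w) 0 ≠ 0 := mul_ne_zero x0 (inv_ne_zero y0)
    rw [a2, P3_P2 hl x0 y0, P3_jac hl u0]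
    refine ⟨a1, mul_right_cancel₀ (pow_ne_zero C.m (norm_ne_zero_iff.2
      (div_ne_zero (hl.ne _ y0) (pow_ne_zero 2 y0)))) ?_⟩
    rw [← b2, b1, mul_assoc, ← mul_pow, ← norm_mul]
    congr 3
    have : c.pt k w 0 = P2 l (c.pt k w) 0 * c.pt k w 1 := by
      simp [P2, y0]
    rw [div_mul_div_comm, ← hl.mul, ← mul_pow, ← this]
  have G1 : Eul C c v₁ (K ∩ {q | ‖q 1‖ ≤ 2 / ε * ‖q 0‖}) := by
    refine eul_move cmp change hC hc hc₁ cK₁ (fun q hq => mv1 hl he (ne0 (hN q hq.1).1 hq.2))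
      (fun q hq _ => ns q (hN q hq.1).1 (hN q hq.1).2) ?_ (eul_mono hC E₁ subset_union_right)
    filter_upwards [H] with k hk z hz
    filter_upwards [hk z hz] with w ⟨x0, y0, a1, a2, b1, b2⟩
    rw [P1_jac hl x0]
    exact ⟨a1, b1⟩
  have G2 : Eul C c v₂ (K ∩ {q | ‖q 0‖ ≤ 3 * ε / 4 * ‖q 1‖}) := by
    refine eul_move cmp change hC hc hc₂ cK₂ (fun q hq => mv2 hl he (ne1 (hN q hq.1).1 hq.2))
      (fun q hq _ => ns q (hN q hq.1).1 (hN q hq.1).2) ?_ (eul_mono hC E₂ subset_union_right)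
    filter_upwards [H] with k hk z hz
    filter_upwards [hk z hz] with w ⟨x0, y0, a1, a2, b1, b2⟩
    rw [P2_jac hl y0]
    exact ⟨a2, b2⟩
  refine ⟨_, hη O _ _ v₂ v₁ ?_ V₂ V₁ (eul_mono hC E₂ subset_union_left) F₁,
    eul_mix hC G2 G1 (cut_mem hχ.bd) ?_⟩
  · filter_upwards [H, HO, hc₁.1, hc₂.1] with k hk ⟨o1, o2, o3⟩ ⟨M₁, _⟩ ⟨M₂, _⟩
    refine ⟨o1, dom_open hC g₂ k, dom_open hC g₁ k, o2, fun z hz => ?_⟩
    have A : AnalyticAt ℂ (c₂.x 0 k) z → ‖c₂.x 0 k z‖ < ε →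
        AnalyticAt ℂ (c₂.x 1 k) z ∧ ‖c₂.x 1 k z‖ ≤ δ := fun a b => by
      refine bdd_at (M₂ 1) (o2 hz) ?_
      filter_upwards [hk z (o2 hz), o3 z hz, nhdsWithin_le_nhds
        (a.continuousAt.norm.eventually_lt continuousAt_const b)] with w ⟨x0, y0, a1, a2, _⟩ N d
      rw [show c₂.x 1 k w = l (c.pt k w 1) from congrFun a2 1]
      have d' : ‖c₂.x 0 k w‖ < ε := d
      rw [show c₂.x 0 k w = c.pt k w 0 * (c.pt k w 1)⁻¹ from congrFun a2 0] at d'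
      exact N.2 ((quo_le y0).1 d'.le)
    refine ⟨fun a => dom_mono (hχ.sub.trans ((ball_subset_ball (by linarith)).trans b₂)) a,
      fun a => ?_, fun a => ?_⟩
    · have B : ∀ᶠ w in 𝓝[≠] z, ε / 2 < ‖c₂.x 0 k w‖ := by
        rcases M₂ 0 z (o2 hz) with b | b
        · refine nhdsWithin_le_nhds (continuousAt_const.eventually_lt b.continuousAt.norm ?_)
          by_contra d
          obtain ⟨d1, d2⟩ := A b ((not_lt.1 d).trans_lt (half_lt_self e0))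
          exact a ⟨o2 hz, Fin.forall_fin_two.2 ⟨b, d1⟩, hχ.one (mem_closedBall_zero_iff.2
            ((nrm2 (by positivity)).2 ⟨not_lt.1 d, d2.trans db⟩))⟩
        · exact (tendsto_norm_cobounded_atTop.comp b).eventually_gt_atTop _
      have D : ∀ᶠ w in 𝓝[≠] z, ‖c₁.x 0 k w‖ ≤ δ ∧ ‖c₁.x 1 k w‖ ≤ 2 / ε := by
        filter_upwards [hk z (o2 hz), o3 z hz, B] with w ⟨x0, y0, a1, a2, _⟩ N d
        rw [show c₂.x 0 k w = c.pt k w 0 * (c.pt k w 1)⁻¹ from congrFun a2 0] at d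
        have : ‖c.pt k w 1‖ ≤ 2 / ε * ‖c.pt k w 0‖ := by
          by_contra h
          exact d.not_ge ((quo_le y0).2 (alt _ h))
        rw [show c₁.x 0 k w = l (c.pt k w 0) from congrFun a1 0,
          show c₁.x 1 k w = c.pt k w 1 * (c.pt k w 0)⁻¹ from congrFun a1 1]
        exact ⟨N.1 this, (quo_le x0).2 this⟩
      obtain ⟨u1, u2⟩ := bdd_at (M₁ 0) (o2 hz) (D.mono fun _ h => h.1)
      obtain ⟨u3, u4⟩ := bdd_at (M₁ 1) (o2 hz) (D.mono fun _ h => h.2)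
      exact ⟨o2 hz, Fin.forall_fin_two.2 ⟨u1, u3⟩, hd _ (u2.trans da) u4⟩
    · rw [hL]
      refine ⟨a.2.2, (A (a.2.1 0) ?_).2⟩
      have := mem_ball_zero_iff.1 (hχ.der _ a.2.2).1
      have := norm_le_pi_norm (c₂.pt k z) 0
      show ‖c₂.pt k z 0‖ < ε
      linarith
  · filter_upwards [H, hc₂.1] with k hk ⟨M₂, _⟩ z hz
    have mv : c.pt k z 1 ≠ 0 → (∀ i, AnalyticAt ℂ (c₂.x i k) z) ∧ c₂.pt k z = P2 l (c.pt k z) :=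
      fun y0 => by
        have := pt_move M₂ hz (P2_an hl y0).continuousAt ((hk z hz.1).mono fun _ h => h.2.2.2.1)
        exact ⟨fun i => (this i).1, funext fun i => (this i).2.self_of_nhds⟩
    refine ⟨fun a => ⟨hz.2.2, ?_⟩, fun a => ⟨hz.2.2, ?_⟩⟩
    · have b := cut_ne (C := C) hz.1 a
      have b1 := (norm_le_pi_norm (c₂.pt k z) 0).trans (mem_ball_zero_iff.1 (hχ.sub b.2.2)).le
      have b2 : c₂.x 0 k z * c.x 1 k z = c.x 0 k z := by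
        refine tendsto_nhds_unique (l := 𝓝[≠] z)
          (((b.2.1 0).continuousAt.mul (hz.2.1 1).continuousAt).tendsto.mono_left
            nhdsWithin_le_nhds)
          (((hz.2.1 0).continuousAt.tendsto.mono_left nhdsWithin_le_nhds).congr' ?_)
        filter_upwards [hk z hz.1] with w ⟨x0, y0, a1, a2, _⟩
        show c.pt k w 0 = c₂.x 0 k w * c.pt k w 1
        rw [show c₂.x 0 k w = c.pt k w 0 * (c.pt k w 1)⁻¹ from congrFun a2 0]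
        field_simp
      show ‖c.x 0 k z‖ ≤ 3 * ε / 4 * ‖c.x 1 k z‖
      rw [← b2, norm_mul]
      exact mul_le_mul_of_nonneg_right b1 (norm_nonneg _)
    · by_contra h
      have h1 := alt _ h
      have y0 := ne1 (hN _ hz.2.2).1 h1
      obtain ⟨u1, u2⟩ := mv y0
      refine a (cut_one (C := C) ⟨hz.1, u1, hχ.one (mem_closedBall_zero_iff.2 ?_)⟩)
      rw [u2, nrm2 (by positivity)]
      exact ⟨(quo_le y0).2 h1, ((hN _ hz.2.2).2.2 (h1.trans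
        (mul_le_mul_of_nonneg_right (by linarith) (norm_nonneg _)))).trans db⟩

end Pool.Agent.MP_c69980_ag.H69
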